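import Pool.Agent.LPW.StmtsS

/-!
Squad LPW, row NRM (helper18): normalization of the coefficients.
-/

set_option autoImplicit false

noncomputable section

namespace Pool.Agent.LPW.H18

theorem nrm : NrmStmt := by
  intro p _ K H hH hD
  classical
  let c : ℕ → ℕ → ℤ_[p] := fun i j => hc H i j * (p : ℤ_[p]) ^ (i + j)
  let S : Finset (ℕ × ℕ) :=
    (Finset.range (K + 1) ×ˢ Finset.range (K + 1)).filter fun x => x.1 + x.2 ≤ K
  have hS : ∀ x : ℕ × ℕ, x ∈ S ↔ x.1 + x.2 ≤ K := by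
    intro x
    simp only [S, Finset.mem_filter, Finset.mem_product, Finset.mem_range]
    omega
  have hSne : S.Nonempty := ⟨(0, 0), (hS _).2 (Nat.zero_le _)⟩
  obtain ⟨⟨k, l⟩, hkl, hmax⟩ := S.exists_max_image (fun x => ‖c x.1 x.2‖) hSne
  have hkl' : k + l ≤ K := (hS _).1 hkl
  have hmax' : ∀ i j, i + j ≤ K → ‖c i j‖ ≤ ‖c k l‖ := fun i j h => hmax (i, j) ((hS _).2 h)
  have hp0 : (0 : ℝ) < p := by exact_mod_cast (Fact.out : p.Prime).pos
  have hp1 : (1 : ℝ) < p := by exact_mod_cast (Fact.out : p.Prime).one_lt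
  have hcn : ∀ i j, ‖c i j‖ = ‖hc H i j‖ * (p : ℝ) ^ (-((i + j : ℕ) : ℤ)) := by
    intro i j
    show ‖hc H i j * (p : ℤ_[p]) ^ (i + j)‖ = _
    rw [norm_mul, PadicInt.norm_p_pow]
  have hne : c k l ≠ 0 := by
    intro h0
    apply hH
    have hz : ∀ i j, i + j ≤ K → hc H i j = 0 := by
      intro i j hij
      have h1 := hmax' i j hij
      rw [h0, norm_zero] at h1
      have h2 : c i j = 0 := norm_le_zero_iff.1 h1
      have h3 : hc H i j * (p : ℤ_[p]) ^ (i + j) = 0 := h2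
      rcases mul_eq_zero.1 h3 with h4 | h4
      · exact h4
      · exfalso
        have h5 : ((p : ℕ) : ℤ_[p]) ≠ 0 := by
          exact_mod_cast (Fact.out : p.Prime).ne_zero
        exact (pow_ne_zero _ h5) h4
    have hz2 : ∀ i j, hc H i j = 0 := by
      intro i j
      obtain ⟨k', l', hk, hle⟩ := hD i j
      rw [hz k' l' hk, norm_zero] at hle
      exact norm_le_zero_iff.1 hle
    ext j i
    rw [map_zero, map_zero]
    exact hz2 i j
  let κ : ℕ := (c k l).valuation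
  have hκ : ‖c k l‖ = (p : ℝ) ^ (-(κ : ℤ)) := PadicInt.norm_eq_zpow_neg_valuation hne
  have hall : ∀ i j, ‖c i j‖ ≤ (p : ℝ) ^ (-((κ + (i + j - K) : ℕ) : ℤ)) := by
    intro i j
    by_cases hij : i + j ≤ K
    · have h1 : i + j - K = 0 := Nat.sub_eq_zero_of_le hij
      rw [h1, add_zero, ← hκ]
      exact hmax' i j hij
    · obtain ⟨k', l', hk, hle⟩ := hD i j
      have h1 := hmax' k' l' hk
      rw [hκ, hcn] at h1
      rw [hcn]
      have h2 : ‖hc H k' l'‖ ≤ (p : ℝ) ^ (-(κ : ℤ) + ((k' + l' : ℕ) : ℤ)) := by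
        rw [zpow_add₀ hp0.ne']
        have h3 : (0 : ℝ) < (p : ℝ) ^ (((k' + l' : ℕ) : ℤ)) := zpow_pos hp0 _
        have h4 := mul_le_mul_of_nonneg_right h1 h3.le
        rw [mul_assoc, ← zpow_add₀ hp0.ne', neg_add_cancel, zpow_zero, mul_one] at h4
        exact h4
      calc ‖hc H i j‖ * (p : ℝ) ^ (-((i + j : ℕ) : ℤ))
          ≤ (p : ℝ) ^ (-(κ : ℤ) + ((k' + l' : ℕ) : ℤ)) * (p : ℝ) ^ (-((i + j : ℕ) : ℤ)) :=
            mul_le_mul_of_nonneg_right (hle.trans h2) (zpow_pos hp0 _).le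
        _ = (p : ℝ) ^ (-(κ : ℤ) + ((k' + l' : ℕ) : ℤ) + -((i + j : ℕ) : ℤ)) := by
            rw [← zpow_add₀ hp0.ne']
        _ ≤ (p : ℝ) ^ (-((κ + (i + j - K) : ℕ) : ℤ)) := by
            apply zpow_le_zpow_right₀ hp1.le
            omega
  have hdiv : ∀ i j, ∃ g, c i j = (p : ℤ_[p]) ^ (κ + (i + j - K)) * g := by
    intro i j
    have h1 := (PadicInt.norm_le_pow_iff_mem_span_pow (c i j) _).1 (hall i j)
    exact Ideal.mem_span_singleton.1 h1
  choose g hg using hdiv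
  refine ⟨κ, fun i j => (p : ℤ_[p]) ^ (i + j - K) * g i j, ?_, ⟨k, l, hkl', ?_⟩, ?_⟩
  · intro i j
    have h1 := hg i j
    rw [pow_add, mul_assoc] at h1
    exact h1
  · have h0 : k + l - K = 0 := Nat.sub_eq_zero_of_le hkl'
    have h1 := hg k l
    rw [h0, add_zero] at h1
    rw [PadicInt.isUnit_iff]
    show ‖(p : ℤ_[p]) ^ (k + l - K) * g k l‖ = 1
    rw [h0, pow_zero, one_mul]
    have h2 := congrArg norm h1
    rw [hκ, norm_mul, PadicInt.norm_p_pow] at h2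
    have h3 : (p : ℝ) ^ (-(κ : ℤ)) ≠ 0 := (zpow_pos hp0 _).ne'
    have h4 : (p : ℝ) ^ (-(κ : ℤ)) * 1 = (p : ℝ) ^ (-(κ : ℤ)) * ‖g k l‖ := by
      rw [mul_one]
      exact h2
    exact (mul_left_cancel₀ h3 h4).symm
  · intro i j
    exact Dvd.intro _ rfl

end Pool.Agent.LPW.H18
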